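import Pool.Agent.helper61.Y2.Spec

set_option autoImplicit false

/-!
# Project Y2 (MP_752b23_lc), row O1
-/

namespace H61.Y2

open H61.Yorioka Cardinal

/-- an injection of a small finite set into a level -/
theorem O1_code {α : Type} (V : Finset α) (n : ℕ) (h : V.card ≤ 2 ^ n) :
    ∃ g : α → List Bool, (∀ x ∈ V, g x ∈ level n) ∧ Set.InjOn g (V : Set α) := by
  classical
  have h1 : Fintype.card V ≤ Fintype.card (level n) := by
    rw [Fintype.card_coe, Fintype.card_coe, card_level]
    exact h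
  obtain ⟨e⟩ := Function.Embedding.nonempty_of_card_le h1
  refine ⟨fun x => if hx : x ∈ V then ((e ⟨x, hx⟩ : level n) : List Bool) else [], ?_, ?_⟩
  · intro x hx
    simp only [hx, dif_pos]
    exact (e ⟨x, hx⟩).2
  · intro x hx y hy hxy
    have hx' : x ∈ V := hx
    have hy' : y ∈ V := hy
    simp only [hx', hy', dif_pos] at hxy
    have h2 := e.injective (Subtype.ext hxy)
    exact Subtype.ext_iff.1 h2

theorem O1 (hU4 : U4_stmt) (hSQT : SQT_stmt) : O1_stmt := by
  classical
  intro f u α V hf hu ⟨m₀, hm₀⟩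
  have hcode : ∀ i : ℕ, ∃ g : α → List Bool, m₀ ≤ i →
      (∀ x ∈ V i, g x ∈ level (f (KK i))) ∧ Set.InjOn g (V i : Set α) := by
    intro i
    by_cases hi : m₀ ≤ i
    · obtain ⟨g, hg⟩ := O1_code (V i) (f (KK i)) (hm₀ i hi)
      exact ⟨g, fun _ => hg⟩
    · exact ⟨fun _ => [], fun h => absurd h hi⟩
  choose code hc using hcode
  set a : (ℕ → α) → (ℕ → Finset (List Bool)) := fun o i =>
    if m₀ ≤ i ∧ o i ∈ V i then {code i (o i)} else ∅ with ha
  have key := hSQT (ℕ → α) (ℕ → Finset α) (ℕ → Finset (List Bool)) (ℕ → Finset (List Bool)) (yoriokaIdeal f)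
    (r1V u) (r1 f u) 1 0 a {o : ℕ → α | ∃ m, ∀ i ≥ m, o i ∈ V i} {A | Sl f A} (hU4 f u hf hu) ?_ ?_
  · exact key
  · intro o _
    refine ⟨fun j s hs => ?_, fun k => ⟨0, fun j _ => ?_⟩⟩
    · rw [ha] at hs
      simp only at hs
      split_ifs at hs with h
      · rw [Finset.mem_singleton] at hs
        rw [hs]
        exact mem_level.1 ((hc j h.1).1 _ h.2)
      · exact absurd hs (Finset.notMem_empty s)
    · have h1 : (a o j).card ≤ 1 := by
        rw [ha]
        simp only
        split_ifs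
        · exact (Finset.card_singleton _).le
        · rw [Finset.card_empty]
          exact Nat.zero_le 1
      calc (a o j).card ^ k ≤ 1 ^ k := Nat.pow_le_pow_left h1 k
        _ = 1 := one_pow k
        _ ≤ KK j := Nat.one_le_two_pow
  · intro B
    refine ⟨fun i => (V i).filter (fun v => code i v ∈ B i), ?_⟩
    rintro o ⟨⟨m₁, hm₁⟩, -, m₂, hm₂⟩
    refine ⟨max m₀ (max m₁ m₂), fun i hi => ?_⟩
    have hi0 : m₀ ≤ i := (le_max_left _ _).trans hi
    have hi1 : m₁ ≤ i := ((le_max_left _ _).trans (le_max_right _ _)).trans hi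
    have hi2 : m₂ ≤ i := ((le_max_right _ _).trans (le_max_right _ _)).trans hi
    obtain ⟨h1, h2⟩ := hm₂ i hi2
    have hoV := hm₁ i hi1
    refine ⟨?_, ?_⟩
    · refine Finset.mem_filter.2 ⟨hoV, h1 ?_⟩
      rw [ha]
      simp only
      rw [if_pos ⟨hi0, hoV⟩]
      exact Finset.mem_singleton_self _
    · refine le_trans ?_ h2
      refine Finset.card_le_card_of_injOn (code i) ?_ ?_
      · intro v hv
        exact (Finset.mem_filter.1 (Finset.mem_coe.1 hv)).2
      · intro v hv w hw hvw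
        exact (hc i hi0).2 (Finset.mem_filter.1 (Finset.mem_coe.1 hv)).1 (Finset.mem_filter.1 (Finset.mem_coe.1 hw)).1 hvw

end H61.Y2
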